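import Pool.Agent.H26.QQ.Targets
import Pool.Agent.H29.TFX.EXA

/-!
# (EXB) all violators of large exponent
-/

set_option autoImplicit false

open Finset

namespace Pool.Agent.H90.QQ

open Pool.Agent.H29.FX Pool.Agent.H29.TFX Pool.Agent.H26.QQ
open Pool.Agent.H38.AE.Statement
open Pool.Agent.H38.AE (rad RR Tri)
open Pool.Agent.H23.AF (w5 SE2 T_JE mx)

private lemma exb_pow (x : Fin 3 → ℤ) (hc : ∀ i j, i ≠ j → IsCoprime (x i) (x j))
    (s : Finset (Fin 3)) (p E : ℕ) (i : Fin 3) (hi : i ∈ s) (hpi : (p : ℤ) ∣ x i)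
    (h : (p : ℤ) ^ E ∣ ∏ j ∈ s, x j) : (p : ℤ) ^ E ∣ x i := by
  rw [← Finset.mul_prod_erase s x hi] at h
  have h2 : IsCoprime ((p : ℤ) ^ E) (∏ j ∈ s.erase i, x j) := by
    apply IsCoprime.pow_left
    apply IsCoprime.prod_right
    intro j hj
    exact (hc i j (ne_of_mem_erase hj).symm).of_isCoprime_of_dvd_left hpi
  exact h2.dvd_of_dvd_mul_right h

private lemma exb_mem (E : ℕ) (γ Y : ℝ) (N : ℤ) (hN : N ≠ 0) (p : ℕ) :
    p ∈ du E γ Y N ↔ p.Prime ∧ (p : ℤ) ∣ N ∧ (p : ℝ) ≤ Y ^ γ ∧ (p : ℤ) ^ E ∣ N := by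
  unfold du
  rw [Finset.mem_filter, Nat.mem_primeFactors, Int.natCast_dvd]
  constructor
  · rintro ⟨⟨h1, h2, -⟩, h3, h4⟩
    exact ⟨h1, h2, h3, h4⟩
  · rintro ⟨h1, h2, h3, h4⟩
    exact ⟨⟨h1, h2, Int.natAbs_ne_zero.2 hN⟩, h3, h4⟩

/-- the dust of the product -/
private lemma exb_prod (x : Fin 3 → ℤ) (h0 : ∀ i, x i ≠ 0)
    (hc : ∀ i j, i ≠ j → IsCoprime (x i) (x j)) (E : ℕ) (γ Y : ℝ) :
    ∏ p ∈ du E γ Y (∏ i, x i), (p : ℝ) = ∏ i, ∏ p ∈ du E γ Y (x i), (p : ℝ) := by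
  classical
  have hN : ∏ i, x i ≠ 0 := Finset.prod_ne_zero_iff.2 fun i _ => h0 i
  have hu : du E γ Y (∏ i, x i) = univ.biUnion fun i => du E γ Y (x i) := by
    ext p
    rw [exb_mem E γ Y _ hN, Finset.mem_biUnion]
    constructor
    · rintro ⟨hp, h1, h2, h3⟩
      obtain ⟨i, -, hi⟩ := (Prime.dvd_finsetProd_iff (Nat.prime_iff_prime_int.1 hp) x).1 h1
      exact ⟨i, mem_univ i, (exb_mem E γ Y _ (h0 i) p).2
        ⟨hp, hi, h2, exb_pow x hc univ p E i (mem_univ i) hi h3⟩⟩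
    · rintro ⟨i, -, hi⟩
      obtain ⟨hp, h1, h2, h3⟩ := (exb_mem E γ Y _ (h0 i) p).1 hi
      have hd : x i ∣ ∏ i, x i := Finset.dvd_prod_of_mem x (mem_univ i)
      exact ⟨hp, h1.trans hd, h2, h3.trans hd⟩
  rw [hu, Finset.prod_biUnion]
  intro i _ j _ hij
  rw [Function.onFun, Finset.disjoint_left]
  intro p hi hj
  obtain ⟨hp, h1, -, -⟩ := (exb_mem E γ Y _ (h0 i) p).1 hi
  obtain ⟨-, h2, -, -⟩ := (exb_mem E γ Y _ (h0 j) p).1 hj
  have h3 := (hc i j hij).isUnit_of_dvd' h1 h2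
  exact (Nat.prime_iff_prime_int.1 hp).not_isUnit h3

private lemma exb_one (E : ℕ) (γ Y : ℝ) (N : ℤ) : 1 ≤ ∏ p ∈ du E γ Y N, p := by
  refine Nat.succ_le_of_lt (Finset.prod_pos fun p hp => ?_)
  exact (Nat.prime_of_mem_primeFactors (Finset.mem_filter.1 hp).1).pos

private lemma exb_one' (E : ℕ) (γ Y : ℝ) (N : ℤ) : 1 ≤ ∏ p ∈ du E γ Y N, (p : ℝ) := by
  have h : ((1 : ℕ) : ℝ) ≤ ((∏ p ∈ du E γ Y N, p : ℕ) : ℝ) := Nat.cast_le.2 (exb_one E γ Y N)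
  rwa [Nat.cast_prod, Nat.cast_one] at h

private lemma exb_rad (E : ℕ) (γ Y : ℝ) (N : ℤ) : ∏ p ∈ du E γ Y N, (p : ℝ) ≤ RR N := by
  have h : ∏ p ∈ du E γ Y N, p ≤ rad N.natAbs := by
    unfold rad
    exact Finset.prod_le_prod_of_subset_of_one_le' (Finset.filter_subset _ _)
      fun p hp _ => (Nat.prime_of_mem_primeFactors hp).one_lt.le
  have h' : ((∏ p ∈ du E γ Y N, p : ℕ) : ℝ) ≤ (rad N.natAbs : ℝ) := Nat.cast_le.2 h
  rw [Nat.cast_prod] at h'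
  exact h'

private lemma exb_mono (E E' : ℕ) (γ γ' Y : ℝ) (N : ℤ) (hE : E ≤ E') (hγ : γ' ≤ γ)
    (hY : 1 ≤ Y) : ∏ p ∈ du E' γ' Y N, (p : ℝ) ≤ ∏ p ∈ du E γ Y N, (p : ℝ) := by
  have h : ∏ p ∈ du E' γ' Y N, p ≤ ∏ p ∈ du E γ Y N, p := by
    refine Finset.prod_le_prod_of_subset_of_one_le' ?_ fun p hp _ =>
      (Nat.prime_of_mem_primeFactors (Finset.mem_filter.1 hp).1).one_lt.le
    intro p hp
    unfold du at hp ⊢
    rw [Finset.mem_filter] at hp ⊢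
    exact ⟨hp.1, hp.2.1.trans (Real.rpow_le_rpow_of_exponent_le hY hγ),
      (pow_dvd_pow _ hE).trans hp.2.2⟩
  have h' : ((∏ p ∈ du E' γ' Y N, p : ℕ) : ℝ) ≤ ((∏ p ∈ du E γ Y N, p : ℕ) : ℝ) :=
    Nat.cast_le.2 h
  rwa [Nat.cast_prod, Nat.cast_prod] at h'

/-- the exponents outside of the dust of the entries in `s` -/
private lemma exb_exo (hEXO : T_EXO) (x : Fin 3 → ℤ) (h0 : ∀ i, x i ≠ 0)
    (hc : ∀ i j, i ≠ j → IsCoprime (x i) (x j)) (E m : ℕ) (hE : 1 ≤ E) (γ Y : ℝ) (hY : 2 ≤ Y)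
    (hγ : 0 < γ) (hm : 1 ≤ γ * m) (hr : (radical (∏ i, x i) : ℝ) ≤ Y) (s : Finset (Fin 3)) :
    (exponents (∏ i ∈ s, ∏ p ∈ du E γ Y (x i), p) (∏ i ∈ s, x i)).card ≤ E + m := by
  have hN : ∏ i ∈ s, x i ≠ 0 := Finset.prod_ne_zero_iff.2 fun i _ => h0 i
  have hN' : ∏ i, x i ≠ 0 := Finset.prod_ne_zero_iff.2 fun i _ => h0 i
  refine hEXO E m _ γ Y _ hY hγ hm hN ?_ ?_
  · refine le_trans ?_ hr
    have hd : ∏ i ∈ s, x i ∣ ∏ i, x i := Finset.prod_dvd_prod_of_subset _ _ _ (subset_univ s)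
    have h : rad (∏ i ∈ s, x i).natAbs ≤ rad (∏ i, x i).natAbs :=
      EXA_rad_dvd _ _ (Int.natAbs_ne_zero.2 hN') (Int.natAbs_dvd_natAbs.2 hd)
    exact_mod_cast h
  · intro p hp hpY hpE
    have h1 : (p : ℤ) ∣ ∏ i ∈ s, x i := (dvd_pow_self _ (by omega)).trans hpE
    obtain ⟨i, his, hi⟩ := (Prime.dvd_finsetProd_iff (Nat.prime_iff_prime_int.1 hp) x).1 h1
    have h2 : p ∈ du E γ Y (x i) := (exb_mem E γ Y _ (h0 i) p).2
      ⟨hp, hi, hpY, exb_pow x hc s p E i his hi hpE⟩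
    exact (Finset.dvd_prod_of_mem (fun p => p) h2).trans
      (Finset.dvd_prod_of_mem (fun i => ∏ p ∈ du E γ Y (x i), p) his)

private lemma exb_three : ∀ a : Fin 3, ∃ b c : Fin 3, b ≠ c ∧ b ≠ a ∧ c ≠ a ∧
    univ.erase a = {b, c} := by decide

private lemma exb_perm : ∀ a b c : Fin 3, b ≠ c → b ≠ a → c ≠ a →
    ∃ σ : Equiv.Perm (Fin 3), σ 0 = b ∧ σ 1 = c ∧ σ 2 = a := by decide

/-- the cheap divisor -/
private lemma exb_cheap (hW5B : T_W5B) (x : Fin 3 → ℤ) (hadm : Admissible x) (Y : ℝ)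
    (hY : 2 ≤ Y) (H : ℕ) (hH : ∀ i, |x i| ≤ (H : ℤ)) (σ : Equiv.Perm (Fin 3)) (η : ℝ)
    (hR : RR (x (σ 0)) * RR (x (σ 1)) * RR (x (σ 2)) ≤ Y)
    (hR2 : RR (x (σ 0)) * RR (x (σ 1)) ≤ Y ^ (2 / 3 : ℝ)) (q : ℕ) (hq1 : 1 ≤ q)
    (hqx : (q : ℤ) ∣ x (σ 2)) (hqZ : Y ^ (2 : ℝ) ≤ q) (hqr : (rad q : ℝ) ≤ Y ^ (2 * η)) :
    EXA_t σ x ∈ SE2 H (Y ^ (2 * η) * (4 * Y ^ (1 / 3 : ℝ))) := by
  have hY0 : (0 : ℝ) < Y := by linarith
  have hR1 : ∀ i, 1 ≤ RR (x i) := fun i => by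
    unfold RR; exact_mod_cast EXA_rad_pos _
  refine ⟨EXA_tri x hadm H hH σ, q, hq1, hqx, ?_⟩
  set t := EXA_t σ x with ht
  have hmx : |(t.2.2 : ℝ)| ≤ (mx t : ℝ) := by
    rw [← Int.cast_abs]
    have : |t.2.2| ≤ mx t := (le_max_right _ _).trans (le_max_right _ _)
    exact_mod_cast this
  have ht0 : 0 < |(t.2.2 : ℝ)| := by
    have : t.2.2 ≠ 0 := hadm.1 (σ 2)
    exact abs_pos.2 (by exact_mod_cast this)
  set Q : ℝ := (q : ℝ) * (mx t : ℝ) / |(t.2.2 : ℝ)| with hQ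
  have hq0 : (0 : ℝ) ≤ q := Nat.cast_nonneg q
  have hQq : (q : ℝ) ≤ Q := by
    rw [hQ, le_div_iff₀ ht0]
    exact mul_le_mul_of_nonneg_left hmx hq0
  have hQZ : Y ^ (2 : ℝ) ≤ Q := hqZ.trans hQq
  have a0 := hR1 (σ 0)
  have a1 := hR1 (σ 1)
  have a2 := hR1 (σ 2)
  obtain ⟨b0, b1⟩ := EXA_le _ _ _ _ a0 a1 a2 hR
  have hsq : ∀ R : ℝ, 1 ≤ R → R ≤ Y → R ^ 2 ≤ Q := by
    intro R h1 h2
    refine le_trans ?_ hQZ
    rw [Real.rpow_two]
    gcongr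
  have w0 := hW5B Q (RR (x (σ 0))) a0 (hsq _ a0 b0)
  have w1 := hW5B Q (RR (x (σ 1))) a1 (hsq _ a1 b1)
  have hQ0 : 0 ≤ Q := le_trans (by positivity) hQZ
  have n0 := EXA_w5_nonneg Q (RR (x (σ 0))) hQ0 (by linarith)
  have n1 := EXA_w5_nonneg Q (RR (x (σ 1))) hQ0 (by linarith)
  have hsqrt : Real.sqrt (w5 Q (RR (x (σ 0))) * w5 Q (RR (x (σ 1)))) ≤
      4 * Y ^ (1 / 3 : ℝ) := by
    apply Real.sqrt_le_iff.2
    refine ⟨by positivity, ?_⟩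
    calc w5 Q (RR (x (σ 0))) * w5 Q (RR (x (σ 1))) ≤
          (4 * RR (x (σ 0))) * (4 * RR (x (σ 1))) := by
          gcongr
      _ = 16 * (RR (x (σ 0)) * RR (x (σ 1))) := by ring
      _ ≤ 16 * Y ^ (2 / 3 : ℝ) := by gcongr
      _ = (4 * Y ^ (1 / 3 : ℝ)) ^ 2 := by
          rw [mul_pow, ← Real.rpow_natCast (Y ^ (1 / 3 : ℝ)), ← Real.rpow_mul hY0.le]
          norm_num
  show (rad q : ℝ) * Real.sqrt (w5 Q (RR (x (σ 0))) * w5 Q (RR (x (σ 1)))) ≤ _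
  gcongr

theorem pf_EXB (hFNU : T_FNU) (hFNG : T_FNG) (hEXO : T_EXO) (hCHN : T_CHN) (hPGH : T_PGH)
    (hCHP : T_CHP) (hW5B : T_W5B) (hJE : Pool.Agent.H23.AF.T_JE) : T_EXB := by
  intro ε hε
  obtain ⟨e₁, he₁, he₁ε, he₁1⟩ : ∃ e₁ : ℝ, 0 < e₁ ∧ e₁ ≤ ε ∧ e₁ ≤ 1 :=
    ⟨min ε 1, lt_min hε one_pos, min_le_left _ _, min_le_right _ _⟩
  set η : ℝ := e₁ / 32 with hη
  have hη0 : 0 < η := by positivity
  have hη1 : η ≤ 1 / 32 := by rw [hη]; linarith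
  obtain ⟨T, hT⟩ := exists_nat_ge (1 / η)
  have hT1 : 1 ≤ T * η := by
    rw [div_le_iff₀ hη0] at hT; exact hT
  obtain ⟨E, m, γ, hch⟩ := hCHN (fun k E γ => ∀ A θ : ℝ, 0 ≤ θ → ∃ C : ℝ, 0 < C ∧
    ∀ (Y : ℝ) (a : Fin 3), 2 ≤ Y → (DustFew k a E γ η (Y ^ θ) Y (Y ^ A)).Finite ∧
      ((DustFew k a E γ η (Y ^ θ) Y (Y ^ A)).ncard : ℝ) ≤ C * Y ^ (θ + η)) η hη0 (by
    intro k
    obtain ⟨E, γ, hγ, h⟩ := hFNU k η hη0
    exact ⟨E, γ, hγ, fun E' γ' hE hγ' A θ hθ => h A θ hθ E' γ' hE hγ'⟩)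
  have hγ0 := fun t => (hch t).1
  have hγη := fun t => (hch t).2.1
  have hγm := fun t => (hch t).2.2.1
  have hEη := fun t => (hch t).2.2.2.1
  have hEE := fun t => (hch t).2.2.2.2.1
  have hγγ := fun t => (hch t).2.2.2.2.2.1
  have hP := fun t => (hch t).2.2.2.2.2.2
  have hE1 : ∀ t, 1 ≤ E t := by
    intro t
    by_contra h
    have h0 : E t = 0 := by omega
    have h1 := hEη t
    rw [h0] at h1
    have h2 : 0 < 2 / η := by positivity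
    push_cast at h1
    linarith
  choose Mt hMt0 hMt using fun t => hFNG (E t + m t) η hη0
  have hMle : ∀ t, t < T → Mt t ≤ 1 + ∑ t ∈ range T, Mt t := by
    intro t ht
    have := Finset.single_le_sum (f := Mt) (fun i _ => (hMt0 i).le) (Finset.mem_range.2 ht)
    linarith
  have hM0 : 0 < 1 + ∑ t ∈ range T, Mt t := by
    have := Finset.sum_nonneg (s := range T) (f := Mt) (fun i _ => (hMt0 i).le)
    linarith
  refine ⟨1 + ∑ t ∈ range T, Mt t, hM0, fun A => ?_⟩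
  choose C₁ hC₁ hF₁ using fun t => hMt t A (4 * η) (by positivity)
  choose C₂ hC₂ hF₂ using fun t => hP t A (1 / 3 + 2 * η) (by positivity)
  set ε' : ℝ := e₁ / (8 * (|A| + 1)) with hε'
  have hε'0 : 0 < ε' := by positivity
  obtain ⟨C₃, hC₃, hJ'⟩ := hJE ε' hε'0
  set K : ((Fin T ⊕ (Fin T × Fin 3)) ⊕ Equiv.Perm (Fin 3)) → ℝ :=
    Sum.elim (Sum.elim (fun t => C₁ t) (fun q => C₂ q.1)) (fun _ => C₃ * 8) with hK
  have hK0 : ∀ o, 0 ≤ K o := by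
    rintro ((t | q) | σ)
    · exact (hC₁ t).le
    · exact (hC₂ q.1).le
    · show 0 ≤ C₃ * 8
      positivity
  refine ⟨∑ o, K o + 1, by
    have := Finset.sum_nonneg (s := univ) (f := K) (fun o _ => hK0 o)
    linarith, fun Y hY => ?_⟩
  have hY0 : (0 : ℝ) < Y := by linarith
  have hY1 : (1 : ℝ) ≤ Y := by linarith
  set H : ℕ := ⌈Y ^ A⌉₊ with hH
  have hYA : 0 < Y ^ A := Real.rpow_pos_of_pos hY0 A
  have hH1 : 1 ≤ H := Nat.one_le_iff_ne_zero.2 (Nat.ceil_pos.2 hYA).ne'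
  have hHA : (H : ℝ) ≤ 2 * Y ^ |A| := by
    have h1 : (H : ℝ) < Y ^ A + 1 := Nat.ceil_lt_add_one hYA.le
    have h2 : Y ^ A ≤ Y ^ |A| := Real.rpow_le_rpow_of_exponent_le hY1 (le_abs_self A)
    have h3 : (1 : ℝ) ≤ Y ^ |A| := Real.one_le_rpow hY1 (abs_nonneg A)
    linarith
  have hHe : (H : ℝ) ^ ε' ≤ 2 * Y ^ (e₁ / 8) := by
    have hε'1 : ε' ≤ 1 := (EXA_exp e₁ A he₁ he₁1).1
    calc (H : ℝ) ^ ε' ≤ (2 * Y ^ |A|) ^ ε' := by gcongr
      _ = 2 ^ ε' * (Y ^ |A|) ^ ε' := Real.mul_rpow (by norm_num) (by positivity)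
      _ ≤ 2 ^ (1 : ℝ) * Y ^ (e₁ / 8) := by
          gcongr
          · norm_num
          · rw [← Real.rpow_mul hY0.le]
            exact Real.rpow_le_rpow_of_exponent_le hY1 (EXA_exp e₁ A he₁ he₁1).2
      _ = _ := by rw [Real.rpow_one]
  set Z₂ : ℝ := Y ^ (2 * η) * (4 * Y ^ (1 / 3 : ℝ)) with hZ₂
  set G : ((Fin T ⊕ (Fin T × Fin 3)) ⊕ Equiv.Perm (Fin 3)) → Set (Fin 3 → ℤ) :=
    Sum.elim (Sum.elim (fun t => FewExponents (E t + m t) (Mt t) (Y ^ (4 * η)) Y (Y ^ A))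
      (fun q => DustFew (E q.1 + m q.1) q.2 (E (q.1 + 1)) (γ (q.1 + 1)) η
        (Y ^ (1 / 3 + 2 * η)) Y (Y ^ A))) (fun σ => {x | EXA_t σ x ∈ SE2 H Z₂}) with hG
  have hSE : ∀ σ, {x | EXA_t σ x ∈ SE2 H Z₂}.Finite ∧
      {x | EXA_t σ x ∈ SE2 H Z₂}.ncard ≤ (SE2 H Z₂).ncard := fun σ =>
    EXA_card σ _ ((Pool.Agent.H31.AE.tri_finite H).subset fun t ht => ht.1)
  -- the cover
  have hsub : Violating (1 + ∑ t ∈ range T, Mt t) Y (Y ^ A) ⊆ ∅ ∪ ⋃ o, G o := by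
    rintro x ⟨hadm, hrad, hbig, hsml⟩
    refine Or.inr ?_
    have h0 := hadm.1
    have hc := hadm.2.1
    have hHx : ∀ i, |x i| ≤ (H : ℤ) := by
      intro i
      have h1 : ((|x i| : ℤ) : ℝ) ≤ (H : ℝ) := by
        rw [Int.cast_abs]
        exact (hsml i).trans (Nat.le_ceil _)
      exact_mod_cast h1
    have hR1 : ∀ i, 1 ≤ RR (x i) := fun i => by
      unfold RR; exact_mod_cast EXA_rad_pos _
    have hRprod : RR (x 0) * RR (x 1) * RR (x 2) ≤ Y := by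
      have h := hrad
      rw [EXA_rad_prod x hadm] at h
      unfold RR
      push_cast at h
      exact h
    have hRσ : ∀ σ : Equiv.Perm (Fin 3), RR (x (σ 0)) * RR (x (σ 1)) * RR (x (σ 2)) ≤ Y :=
      fun σ => by rw [EXA_r_perm]; exact hRprod
    have hN : ∏ i, x i ≠ 0 := Finset.prod_ne_zero_iff.2 fun i _ => h0 i
    obtain ⟨t, htT, ht⟩ := hPGH η Y T E γ (∏ i, x i) hη0 hT1 hY hN hrad
    rw [exb_prod x h0 hc, exb_prod x h0 hc] at ht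
    set D : Fin 3 → ℝ := fun i => ∏ p ∈ du (E t) (γ t) Y (x i), (p : ℝ) with hD
    set D' : Fin 3 → ℝ := fun i => ∏ p ∈ du (E (t + 1)) (γ (t + 1)) Y (x i), (p : ℝ) with hD'
    have hD1 : ∀ i, 1 ≤ D i := fun i => exb_one' _ _ _ _
    have hD'1 : ∀ i, 1 ≤ D' i := fun i => exb_one' _ _ _ _
    have hDD : ∀ i, D' i ≤ D i := fun i => exb_mono _ _ _ _ _ _ (hEE t) (hγγ t) hY1
    have hDR : ∀ i, D' i ≤ RR (x i) := fun i => exb_rad _ _ _ _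
    have hYη : 1 ≤ Y ^ η := Real.one_le_rpow hY1 hη0.le
    have hdust : ∀ i, Y ^ η ≤ D' i → Dust (E (t + 1)) (γ (t + 1)) η Y (x i) := by
      intro i hi
      refine ⟨du (E (t + 1)) (γ (t + 1)) Y (x i), fun l hl => ?_, hi⟩
      obtain ⟨h1, -, h2, h3⟩ := (exb_mem _ _ _ _ (h0 i) l).1 hl
      exact ⟨h1, h2, h3⟩
    by_cases hI : ∃ σ : Equiv.Perm (Fin 3), Y ^ η ≤ D' (σ 2) ∧
        RR (x (σ 0)) * RR (x (σ 1)) ≤ Y ^ (2 / 3 : ℝ)
    · obtain ⟨σ, hσ1, hσ2⟩ := hI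
      obtain ⟨q, hq1, hqx, hqZ, hqr⟩ := hCHP η (γ (t + 1)) Y (E (t + 1)) (x (σ 2)) hη0
        (hγ0 _) (hγη _) (hEη _) hY (hdust _ hσ1)
      exact Set.mem_iUnion.2 ⟨.inr σ,
        exb_cheap hW5B x hadm Y hY H hHx σ η (hRσ σ) hσ2 q hq1 hqx hqZ hqr⟩
    push Not at hI
    have hsm : ∀ a, Y ^ η ≤ D' a → RR (x a) ≤ Y ^ (1 / 3 : ℝ) := by
      intro a ha
      obtain ⟨b, c, h1, h2, h3, -⟩ := exb_three a
      obtain ⟨σ, s0, s1, s2⟩ := exb_perm a b c h1 h2 h3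
      have h4 := hI σ (by rw [s2]; exact ha)
      have h5 := hRσ σ
      rw [s2] at h5
      have e : Y ^ (2 / 3 : ℝ) * Y ^ (1 / 3 : ℝ) = Y := by
        rw [← Real.rpow_add hY0]; norm_num
      have hp : 0 < Y ^ (2 / 3 : ℝ) := Real.rpow_pos_of_pos hY0 _
      have h6 : Y ^ (2 / 3 : ℝ) * RR (x a) ≤ Y ^ (2 / 3 : ℝ) * Y ^ (1 / 3 : ℝ) := by
        rw [e]
        refine le_trans ?_ h5
        exact mul_le_mul_of_nonneg_right h4.le (by linarith [hR1 a])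
      exact le_of_mul_le_mul_left h6 hp
    have hexo := exb_exo hEXO x h0 hc (E t) (m t) (hE1 t) (γ t) Y hY (hγ0 t) (hγm t) hrad
    by_cases hII : ∃ a, Y ^ η ≤ D' a
    · obtain ⟨a, ha⟩ := hII
      obtain ⟨b, c, h1, h2, h3, h4⟩ := exb_three a
      obtain ⟨σ, s0, s1, s2⟩ := exb_perm a b c h1 h2 h3
      have h5 := hI σ (by rw [s2]; exact ha)
      rw [s0, s1] at h5
      have hYt : 1 ≤ Y ^ (1 / 3 : ℝ) := Real.one_le_rpow hY1 (by norm_num)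
      have hη3 : Y ^ η ≤ Y ^ (1 / 3 : ℝ) :=
        Real.rpow_le_rpow_of_exponent_le hY1 (by linarith)
      have hbc : D' b * D' c ≤ Y ^ (1 / 3 : ℝ) * Y ^ η := by
        by_cases hb : Y ^ η ≤ D' b
        · by_cases hc' : Y ^ η ≤ D' c
          · exfalso
            have e : Y ^ (1 / 3 : ℝ) * Y ^ (1 / 3 : ℝ) = Y ^ (2 / 3 : ℝ) := by
              rw [← Real.rpow_add hY0]; norm_num
            have h6 : RR (x b) * RR (x c) ≤ Y ^ (1 / 3 : ℝ) * Y ^ (1 / 3 : ℝ) :=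
              mul_le_mul (hsm b hb) (hsm c hc') (by linarith [hR1 c]) (by linarith)
            rw [e] at h6
            linarith
          · exact mul_le_mul ((hDR b).trans (hsm b hb)) (not_le.1 hc').le
              (by linarith [hD'1 c]) (by linarith)
        · by_cases hc' : Y ^ η ≤ D' c
          · rw [mul_comm (D' b)]
            exact mul_le_mul ((hDR c).trans (hsm c hc')) (not_le.1 hb).le
              (by linarith [hD'1 b]) (by linarith)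
          · exact mul_le_mul ((not_le.1 hb).le.trans hη3) (not_le.1 hc').le
              (by linarith [hD'1 c]) (by linarith)
      have hQ : ∏ i ∈ univ.erase a, D i ≤ Y ^ (1 / 3 + 2 * η) := by
        rw [← Finset.mul_prod_erase univ D (mem_univ a),
          ← Finset.mul_prod_erase univ D' (mem_univ a)] at ht
        have h6 : D a * ∏ i ∈ univ.erase a, D i ≤
            D a * (Y ^ η * ∏ i ∈ univ.erase a, D' i) := by
          refine ht.trans ?_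
          have h7 : 0 ≤ Y ^ η * ∏ i ∈ univ.erase a, D' i :=
            mul_nonneg (by linarith) (Finset.prod_nonneg fun i _ => by linarith [hD'1 i])
          calc Y ^ η * (D' a * ∏ i ∈ univ.erase a, D' i) =
                D' a * (Y ^ η * ∏ i ∈ univ.erase a, D' i) := by ring
            _ ≤ _ := mul_le_mul_of_nonneg_right (hDD a) h7
        have h8 := le_of_mul_le_mul_left h6 (by linarith [hD1 a])
        refine h8.trans ?_
        rw [h4, Finset.prod_pair h1]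
        calc Y ^ η * (D' b * D' c) ≤ Y ^ η * (Y ^ (1 / 3 : ℝ) * Y ^ η) := by gcongr
          _ = Y ^ (1 / 3 + 2 * η) := by
            rw [← Real.rpow_add hY0, ← Real.rpow_add hY0]
            congr 1; ring
      refine Set.mem_iUnion.2 ⟨.inl (.inr (⟨t, htT⟩, a)), ?_⟩
      refine ⟨hadm, hrad, hsml, hdust a ha,
        ∏ i ∈ univ.erase a, ∏ p ∈ du (E t) (γ t) Y (x i), p,
        Nat.succ_le_of_lt (Finset.prod_pos fun i _ => exb_one _ _ _ _), ?_,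
        hexo (univ.erase a)⟩
      push_cast
      exact hQ
    · push Not at hII
      have hQ : ∏ i, D i ≤ Y ^ (4 * η) := by
        refine ht.trans ?_
        rw [Fin.prod_univ_three]
        calc Y ^ η * (D' 0 * D' 1 * D' 2) ≤ Y ^ η * (Y ^ η * Y ^ η * Y ^ η) := by
              have a0 := hD'1 0
              have a1 := hD'1 1
              have a2 := hD'1 2
              have b0 := hII 0
              have b1 := hII 1
              have b2 := hII 2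
              gcongr
          _ = Y ^ (4 * η) := by
            rw [← Real.rpow_add hY0, ← Real.rpow_add hY0, ← Real.rpow_add hY0]
            congr 1; ring
      refine Set.mem_iUnion.2 ⟨.inl (.inl ⟨t, htT⟩), ?_⟩
      obtain ⟨i, hi⟩ := hbig
      refine ⟨hadm, hrad, ⟨i, lt_of_le_of_lt
        (Real.rpow_le_rpow_of_exponent_le hY1 (hMle t htT)) hi⟩, hsml,
        ∏ i, ∏ p ∈ du (E t) (γ t) Y (x i), p,
        Nat.succ_le_of_lt (Finset.prod_pos fun i _ => exb_one _ _ _ _), ?_, hexo univ⟩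
      push_cast
      exact hQ
  have hGfin : ∀ o, (G o).Finite := by
    rintro ((t | q) | σ)
    · exact (hF₁ t Y hY).1
    · exact (hF₂ q.1 Y q.2 hY).1
    · exact (hSE σ).1
  obtain ⟨hfin, hcard⟩ := EXA_union _ _ G Set.finite_empty hGfin hsub
  refine ⟨hfin, ?_⟩
  have hW0 : 0 ≤ Y ^ (1 / 3 + ε) := Real.rpow_nonneg hY0.le _
  have hGle : ∀ o, ((G o).ncard : ℝ) ≤ K o * Y ^ (1 / 3 + ε) := by
    rintro ((t | q) | σ)
    · refine (hF₁ t Y hY).2.trans ?_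
      show C₁ t * Y ^ (4 * η + η) ≤ C₁ t * Y ^ (1 / 3 + ε)
      refine mul_le_mul_of_nonneg_left ?_ (hC₁ t).le
      exact Real.rpow_le_rpow_of_exponent_le hY1 (by rw [hη]; linarith)
    · refine (hF₂ q.1 Y q.2 hY).2.trans ?_
      show C₂ q.1 * Y ^ (1 / 3 + 2 * η + η) ≤ C₂ q.1 * Y ^ (1 / 3 + ε)
      refine mul_le_mul_of_nonneg_left ?_ (hC₂ q.1).le
      exact Real.rpow_le_rpow_of_exponent_le hY1 (by rw [hη]; linarith)
    · have h1 : (({x | EXA_t σ x ∈ SE2 H Z₂}.ncard : ℕ) : ℝ) ≤ (SE2 H Z₂).ncard := by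
        exact_mod_cast (hSE σ).2
      refine h1.trans ((hJ' H Z₂ hH1 (by positivity)).trans ?_)
      show C₃ * (H : ℝ) ^ ε' * Z₂ ≤ C₃ * 8 * Y ^ (1 / 3 + ε)
      calc C₃ * (H : ℝ) ^ ε' * Z₂ ≤ C₃ * (2 * Y ^ (e₁ / 8)) * Z₂ := by gcongr
        _ = C₃ * 8 * Y ^ (e₁ / 8 + 2 * η + 1 / 3) := by
            rw [hZ₂, Real.rpow_add hY0, Real.rpow_add hY0]; ring
        _ ≤ C₃ * 8 * Y ^ (1 / 3 + ε) := by
          refine mul_le_mul_of_nonneg_left ?_ (by positivity)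
          exact Real.rpow_le_rpow_of_exponent_le hY1 (by rw [hη]; linarith)
  calc ((Violating (1 + ∑ t ∈ range T, Mt t) Y (Y ^ A)).ncard : ℝ)
      ≤ ((∅ : Set (Fin 3 → ℤ)).ncard : ℝ) + ∑ o, ((G o).ncard : ℝ) := by
        exact_mod_cast hcard
    _ ≤ 0 + ∑ o, K o * Y ^ (1 / 3 + ε) := by
        rw [Set.ncard_empty, Nat.cast_zero]
        gcongr with o _
        exact hGle o
    _ = (∑ o, K o) * Y ^ (1 / 3 + ε) := by rw [zero_add, Finset.sum_mul]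
    _ ≤ (∑ o, K o + 1) * Y ^ (1 / 3 + ε) := by
        gcongr
        linarith

end Pool.Agent.H90.QQ
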