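import Pool.Agent.H26.QQ.Targets

/-!
# (TYQ) flat points and points with an additional exact equation
-/

set_option autoImplicit false

open Finset MvPolynomial
open Pool.Agent.H29.FX Pool.Agent.H26.QQ

namespace Pool.Agent.H90.QQ

theorem pf_TYQ (hALG : T_ALG) (hDWB : T_DWB) : T_TYQ := by
  intro n s pt e L z hG hgd
  obtain ⟨-, hA2, -, -, -⟩ := hALG n L hG
  have hmem : ∀ (j : Fin n) (f : Pl n), eval z (TD L j f) ≠ 0 → j ∈ TI L := by
    intro j f h
    by_contra hj
    rw [hA2 j hj] at h
    exact h (by simp)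
  have hgd' : ∀ i, eval z (gd pt e (TD L i)) = 0 := by
    intro i
    by_cases hi : i ∈ TI L
    · exact hgd i hi
    · rw [hA2 i hi]
      simp [gd, lg]
  by_cases hF : Fl2 pt e L s z
  · exact Or.inl hF
  right
  obtain ⟨hW0, -, -, -, hW5⟩ := hDWB n (TD L)
  have hex : ∃ m : ℕ, ∃ (i : Fin n) (α : Fin n → ℕ), ∑ v, α v = m ∧ m < s ∧
      eval z (dw (TD L) α (gd pt e (TD L i))) ≠ 0 := by
    unfold Fl2 at hF
    push Not at hF
    obtain ⟨i, α, h2, h3⟩ := hF
    exact ⟨_, i, α, rfl, h2, h3⟩
  classical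
  obtain ⟨i, α, h2, h3, h4⟩ := Nat.find_spec hex
  have hne : (univ.filter (fun v => 0 < α v)).Nonempty := by
    by_contra hc
    rw [Finset.not_nonempty_iff_eq_empty, Finset.filter_eq_empty_iff] at hc
    have h5 : α = 0 := by
      funext v
      have := hc (mem_univ v)
      simp only [Pi.zero_apply]
      omega
    rw [h5, hW0, hgd' i] at h4
    exact h4 rfl
  set j := (univ.filter (fun v => 0 < α v)).min' hne with hj
  have hj1 : 0 < α j := by
    have := Finset.min'_mem _ hne
    rw [← hj] at this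
    exact (Finset.mem_filter.1 this).2
  have hj2 : ∀ v, v < j → α v = 0 := by
    intro v hv
    by_contra hc
    have h5 : j ≤ v := Finset.min'_le _ _ (by simp; omega)
    exact absurd hv (not_lt.2 h5)
  set β : Fin n → ℕ := fun v => α v - (Pi.single j 1 : Fin n → ℕ) v with hβ
  have hαβ : α = β + Pi.single j 1 := by
    funext v
    rw [Pi.add_apply, hβ]
    by_cases hv : v = j
    · subst hv
      simp only [Pi.single_eq_same]
      omega
    · simp [Pi.single_eq_of_ne hv]
  have hβ0 : ∀ v, v < j → β v = 0 := by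
    intro v hv
    rw [hβ]
    simp only
    rw [hj2 v hv, Nat.zero_sub]
  have hsβ : ∑ v, β v + 1 = ∑ v, α v := by
    rw [hαβ]
    simp only [Pi.add_apply, Finset.sum_add_distrib]
    rw [Finset.sum_pi_single' j 1 univ]
    simp
  have hβs : ∀ v, β v < s := by
    intro v
    have h5 : β v ≤ ∑ v, β v := Finset.single_le_sum (fun _ _ => Nat.zero_le _) (mem_univ v)
    omega
  have hz : eval z (dw (TD L) β (gd pt e (TD L i))) = 0 := by
    by_contra hc
    exact Nat.find_min hex (m := ∑ v, β v) (by omega) ⟨i, β, rfl, by omega, hc⟩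
  have hnz : eval z (TD L j (dw (TD L) β (gd pt e (TD L i)))) ≠ 0 := by
    rw [← hW5 β j _ hβ0, ← hαβ]
    exact h4
  exact ⟨i, fun v => ⟨β v, hβs v⟩, j, hmem j _ hnz, hz, hnz⟩

end Pool.Agent.H90.QQ
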